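import Mathlib

/-!
# The normalised minimum size of a `d`-blocking set converges

For `d ≥ 3` we prove that `φ_d(n) / n ^ (d - 1)` converges as `n → ∞`.
-/

namespace Pool.Agent.Results.MP_d4e795_co.LimitExists

open Finset

/-- `E` (a family of `d`-subsets of the finite set `V`) is a `d`-blocking set: for every partition
of `V` into exactly `d` nonempty parts, some member of `E` meets every part. -/
def IsBlocking {V : Type} [Fintype V] [DecidableEq V] (d : ℕ) (E : Finset (Finset V)) : Prop :=
  (∀ e ∈ E, e.card = d) ∧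
    ∀ P : Finpartition (univ : Finset V), P.parts.card = d →
      ∃ e ∈ E, ∀ X ∈ P.parts, (e ∩ X).Nonempty

/-- `φ_d(n)`: the minimum size of a `d`-blocking set for an `n`-element set. -/
noncomputable def phi (d n : ℕ) : ℕ :=
  sInf {m | ∃ E : Finset (Finset (Fin n)), IsBlocking d E ∧ E.card = m}

/-! ### Reformulation by surjective colourings -/

/-- Colouring version of `IsBlocking`. -/
def ColBlocking {V : Type} [Fintype V] [DecidableEq V] (d : ℕ) (E : Finset (Finset V)) : Prop :=
  (∀ e ∈ E, e.card = d) ∧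
    ∀ χ : V → Fin d, Function.Surjective χ → ∃ e ∈ E, ∀ i, ∃ x ∈ e, χ x = i

lemma isBlocking_iff {V : Type} [Fintype V] [DecidableEq V] (d : ℕ) (E : Finset (Finset V)) :
    IsBlocking d E ↔ ColBlocking d E := by
  unfold IsBlocking ColBlocking
  refine and_congr_right fun _ => ⟨?_, ?_⟩
  · intro h χ hχ
    let fib : Fin d → Finset V := fun i => univ.filter fun v => χ v = i
    have hfne : ∀ i, (fib i).Nonempty := by
      intro i
      obtain ⟨v, hv⟩ := hχ i
      exact ⟨v, by simp [fib, hv]⟩
    have hfinj : Function.Injective fib := by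
      intro i j hij
      obtain ⟨v, hv⟩ := hfne i
      have hv' : v ∈ fib j := hij ▸ hv
      simp only [fib, mem_filter, mem_univ, true_and] at hv hv'
      rw [← hv, ← hv']
    let P : Finpartition (univ : Finset V) :=
      { parts := univ.image fib
        supIndep := by
          rw [Finset.supIndep_iff_pairwiseDisjoint]
          intro X hX Y hY hXY
          simp only [coe_image, coe_univ, Set.image_univ, Set.mem_range] at hX hY
          obtain ⟨i, rfl⟩ := hX
          obtain ⟨j, rfl⟩ := hY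
          have hij : i ≠ j := fun h => hXY (by rw [h])
          simp only [Function.onFun, id]
          rw [Finset.disjoint_left]
          intro v hv hv'
          simp only [fib, mem_filter, mem_univ, true_and] at hv hv'
          exact hij (hv.symm.trans hv')
        sup_parts := by
          ext v
          simp only [mem_sup, mem_image, mem_univ, true_and, id, iff_true]
          exact ⟨fib (χ v), ⟨χ v, rfl⟩, by simp [fib]⟩
        bot_notMem := by
          simp only [bot_eq_empty, mem_image, mem_univ, true_and, not_exists]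
          intro i hi
          have := hfne i
          rw [hi] at this
          simp at this }
    have hP : P.parts.card = d := by
      simp only [P]
      rw [card_image_of_injective _ hfinj]
      simp
    obtain ⟨e, he, hmeet⟩ := h P hP
    refine ⟨e, he, fun i => ?_⟩
    obtain ⟨x, hx⟩ := hmeet (fib i) (by simp [P])
    rw [mem_inter] at hx
    refine ⟨x, hx.1, ?_⟩
    have := hx.2
    simpa [fib] using this
  · intro h P hP
    let ι := (P.parts.equivFinOfCardEq hP)
    let χ : V → Fin d := fun v => ι ⟨P.part v, P.part_mem.2 (mem_univ v)⟩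
    have hχ : Function.Surjective χ := by
      intro i
      obtain ⟨v, hv⟩ := P.nonempty_of_mem_parts (ι.symm i).2
      refine ⟨v, ?_⟩
      have h1 : P.part v = (ι.symm i : Finset V) :=
        P.part_eq_of_mem (ι.symm i).2 hv
      have h2 : (⟨P.part v, P.part_mem.2 (mem_univ v)⟩ : P.parts) = ι.symm i := Subtype.ext h1
      simp only [χ]
      rw [h2]
      simp
    obtain ⟨e, he, hmeet⟩ := h χ hχ
    refine ⟨e, he, fun X hX => ?_⟩
    obtain ⟨x, hx, hxi⟩ := hmeet (ι ⟨X, hX⟩)
    have h3 := ι.injective hxi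
    have h4 : P.part x = X := congrArg Subtype.val h3
    refine ⟨x, mem_inter.2 ⟨hx, ?_⟩⟩
    rw [← h4]
    exact P.mem_part (mem_univ x)

/-! ### Basic facts about `phi` -/

lemma colBlocking_all {V : Type} [Fintype V] [DecidableEq V] (d : ℕ) :
    ColBlocking d (powersetCard d (univ : Finset V)) := by
  refine ⟨fun e he => (mem_powersetCard.1 he).2, ?_⟩
  intro χ hχ
  obtain ⟨s, hs⟩ := hχ.hasRightInverse
  refine ⟨univ.image s, ?_, fun i => ⟨s i, by simp, hs i⟩⟩
  rw [mem_powersetCard]
  exact ⟨subset_univ _, by rw [card_image_of_injective _ hs.injective]; simp⟩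

lemma phi_spec (d n : ℕ) : ∃ E : Finset (Finset (Fin n)), ColBlocking d E ∧ E.card = phi d n := by
  obtain ⟨E, h1, h2⟩ := Nat.sInf_mem (s := {m | ∃ E : Finset (Finset (Fin n)),
    IsBlocking d E ∧ E.card = m}) ⟨_, _, (isBlocking_iff d _).2 (colBlocking_all d), rfl⟩
  exact ⟨E, (isBlocking_iff d E).1 h1, h2⟩

/-- Pushing a blocking set forward along a surjection. -/
lemma phi_le_of_surj {V : Type} [Fintype V] [DecidableEq V] {d n : ℕ} {E : Finset (Finset V)}
    (hE : ColBlocking d E) (π : V → Fin n) (hπ : Function.Surjective π) : phi d n ≤ E.card := by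
  let E' : Finset (Finset (Fin n)) := (E.image fun e => e.image π).filter fun e => e.card = d
  have hE' : ColBlocking d E' := by
    refine ⟨fun e he => (mem_filter.1 he).2, ?_⟩
    intro χ hχ
    obtain ⟨e, he, h⟩ := hE.2 (χ ∘ π) (hχ.comp hπ)
    have himg : (e.image π).image χ = univ := by
      ext i
      simp only [mem_univ, iff_true]
      obtain ⟨x, hx, hxi⟩ := h i
      exact mem_image.2 ⟨π x, mem_image_of_mem _ hx, hxi⟩
    refine ⟨e.image π, mem_filter.2 ⟨mem_image_of_mem _ he, ?_⟩, ?_⟩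
    · apply le_antisymm
      · exact card_image_le.trans (hE.1 e he).le
      · have := card_image_le (s := e.image π) (f := χ)
        rw [himg] at this
        simpa using this
    · intro i
      obtain ⟨x, hx, hxi⟩ := h i
      exact ⟨π x, mem_image_of_mem _ hx, hxi⟩
  calc phi d n ≤ E'.card := Nat.sInf_le ⟨E', (isBlocking_iff d E').2 hE', rfl⟩
    _ ≤ (E.image fun e => e.image π).card := card_filter_le _ _
    _ ≤ E.card := card_image_le

lemma phi_mono {d m n : ℕ} (h0 : 0 < m) (h : m ≤ n) : phi d m ≤ phi d n := by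
  obtain ⟨E, hE, hc⟩ := phi_spec d n
  rw [← hc]
  refine phi_le_of_surj hE (fun v => if hv : (v : ℕ) < m then ⟨v, hv⟩ else ⟨0, h0⟩) ?_
  intro i
  exact ⟨⟨i, by omega⟩, by simp⟩

/-! ### Counting sets containing a given set -/

lemma card_superset_le {V : Type} [Fintype V] [DecidableEq V] (d : ℕ) (B : Finset V) :
    (univ.filter fun A : Finset V => A.card = d ∧ B ⊆ A).card ≤
      Fintype.card V ^ (d - B.card) := by
  have h1 : (univ.filter fun A : Finset V => A.card = d ∧ B ⊆ A).card ≤
      (powersetCard (d - B.card) (univ : Finset V)).card := by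
    apply card_le_card_of_injOn (fun A => A \ B)
    · intro A hA
      simp only [coe_filter, mem_univ, true_and, Set.mem_ofPred_eq] at hA
      rw [mem_coe, mem_powersetCard]
      exact ⟨subset_univ _, by rw [card_sdiff_of_subset hA.2, hA.1]⟩
    · intro A hA A' hA' h
      simp only [coe_filter, mem_univ, true_and, Set.mem_ofPred_eq] at hA hA'
      simp only at h
      rw [← sdiff_union_of_subset hA.2, ← sdiff_union_of_subset hA'.2, h]
  rw [card_powersetCard] at h1
  exact h1.trans (by simpa using Nat.choose_le_pow (Fintype.card V) (d - B.card))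

/-! ### Rainbow extension -/

lemma exists_rainbow {V : Type} [Fintype V] [DecidableEq V] {d : ℕ} {χ : V → Fin d}
    (hχ : Function.Surjective χ) (B : Finset V) (hB : Set.InjOn χ B) :
    ∃ A : Finset V, B ⊆ A ∧ A.card = d ∧ ∀ i, ∃ x ∈ A, χ x = i := by
  classical
  obtain ⟨s, hs⟩ := hχ.hasRightInverse
  have : ∀ i : Fin d, ∃ v, χ v = i ∧ ∀ b ∈ B, χ b = i → b = v := by
    intro i
    by_cases h : ∃ b ∈ B, χ b = i
    · obtain ⟨b, hb, hbi⟩ := h
      exact ⟨b, hbi, fun b' hb' hbi' => hB hb' hb (hbi'.trans hbi.symm)⟩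
    · push Not at h
      exact ⟨s i, hs i, fun b hb hbi => absurd hbi (h b hb)⟩
  choose r hr1 hr2 using this
  have hrinj : Function.Injective r := fun i j h => by rw [← hr1 i, ← hr1 j, h]
  refine ⟨univ.image r, ?_, ?_, ?_⟩
  · intro b hb
    rw [hr2 (χ b) b hb rfl]
    exact mem_image_of_mem _ (mem_univ _)
  · rw [card_image_of_injective _ hrinj]; simp
  · intro i
    exact ⟨r i, mem_image_of_mem _ (mem_univ _), hr1 i⟩

/-! ### The product construction -/

/-- Transversals of `e` with coordinate sum `0`. -/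
def zeroSum {m t : ℕ} [NeZero t] (e : Finset (Fin m)) : Finset (Finset (Fin m × ZMod t)) :=
  ((univ : Finset (Fin m → ZMod t)).filter fun x => ∑ i ∈ e, x i = 0).image
    fun x => e.image fun i => (i, x i)

lemma zeroSum_card {m t : ℕ} [NeZero t] (e : Finset (Fin m)) (he : e.Nonempty) :
    (zeroSum (t := t) e).card ≤ t ^ (e.card - 1) := by
  classical
  obtain ⟨i0, hi0⟩ := he
  let G : (↥(e.erase i0) → ZMod t) → Finset (Fin m × ZMod t) := fun g =>
    e.image fun i => (i, if h : i ∈ e.erase i0 then g ⟨i, h⟩ else - ∑ j, g j)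
  have hsub : zeroSum (t := t) e ⊆ univ.image G := by
    intro A hA
    simp only [zeroSum, mem_image, mem_filter, mem_univ, true_and] at hA
    obtain ⟨x, hx, rfl⟩ := hA
    refine mem_image.2 ⟨fun j => x j, mem_univ _, ?_⟩
    apply image_congr
    intro i hi
    rw [mem_coe] at hi
    simp only [Prod.mk.injEq, true_and]
    split_ifs with h
    · rfl
    · have hii : i = i0 := by
        by_contra hne
        exact h (mem_erase.2 ⟨hne, hi⟩)
      subst hii
      have h1 : ∑ j : ↥(e.erase i), x j = ∑ j ∈ e.erase i, x j := sum_coe_sort _ _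
      rw [h1]
      have h2 := add_sum_erase e x hi
      rw [hx] at h2
      exact (eq_neg_of_add_eq_zero_left h2).symm
  calc (zeroSum (t := t) e).card ≤ (univ.image G).card := card_le_card hsub
    _ ≤ (univ : Finset (↥(e.erase i0) → ZMod t)).card := card_image_le
    _ = t ^ (e.card - 1) := by
      rw [card_univ, Fintype.card_fun, ZMod.card, Fintype.card_coe, card_erase_of_mem hi0]

/-- The edges containing `p = (b, 0)` and two other vertices of one block. -/
def famOne {m t : ℕ} [NeZero t] (d : ℕ) (b : Fin m) : Finset (Finset (Fin m × ZMod t)) :=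
  univ.filter fun A => A.card = d ∧ (b, 0) ∈ A ∧
    ∃ i : Fin m, ∃ x y : ZMod t, x ≠ y ∧ (i, x) ∈ A ∧ (i, y) ∈ A ∧ (i, x) ≠ (b, 0) ∧
      (i, y) ≠ (b, 0)

/-- The edges containing two consecutive vertices of block `b`. -/
def famTwo {m t : ℕ} [NeZero t] (d : ℕ) (b : Fin m) : Finset (Finset (Fin m × ZMod t)) :=
  univ.filter fun A => A.card = d ∧ ∃ x : ZMod t, x ≠ x + 1 ∧ (b, x) ∈ A ∧ (b, x + 1) ∈ A

lemma famOne_card {m t : ℕ} [NeZero t] (s : ℕ) (b : Fin m) :
    (famOne (t := t) (s + 3) b).card ≤ m ^ (s + 1) * t ^ (s + 2) := by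
  have hsub : famOne (t := t) (s + 3) b ⊆
      ((univ : Finset (Fin m × ZMod t × ZMod t)).filter fun q =>
        q.2.1 ≠ q.2.2 ∧ (q.1, q.2.1) ≠ (b, 0) ∧ (q.1, q.2.2) ≠ (b, 0)).biUnion
        fun q => univ.filter fun A : Finset (Fin m × ZMod t) =>
          A.card = s + 3 ∧ {(b, 0), (q.1, q.2.1), (q.1, q.2.2)} ⊆ A := by
    intro A hA
    simp only [famOne, mem_filter, mem_univ, true_and] at hA
    obtain ⟨h1, h2, i, x, y, hxy, hx, hy, hx0, hy0⟩ := hA
    rw [mem_biUnion]
    refine ⟨(i, x, y), by simp only [mem_filter, mem_univ, true_and]; exact ⟨hxy, hx0, hy0⟩, ?_⟩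
    simp only [mem_filter, mem_univ, true_and]
    refine ⟨h1, ?_⟩
    intro v hv
    simp only [mem_insert, mem_singleton] at hv
    rcases hv with rfl | rfl | rfl <;> assumption
  have hq : ∀ q ∈ ((univ : Finset (Fin m × ZMod t × ZMod t)).filter fun q =>
        q.2.1 ≠ q.2.2 ∧ (q.1, q.2.1) ≠ (b, 0) ∧ (q.1, q.2.2) ≠ (b, 0)),
      (univ.filter fun A : Finset (Fin m × ZMod t) =>
          A.card = s + 3 ∧ {(b, 0), (q.1, q.2.1), (q.1, q.2.2)} ⊆ A).card ≤ (m * t) ^ s := by
    intro q hq
    simp only [mem_filter, mem_univ, true_and] at hq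
    have hc3 : ({(b, 0), (q.1, q.2.1), (q.1, q.2.2)} : Finset (Fin m × ZMod t)).card = 3 := by
      rw [card_eq_three]
      refine ⟨_, _, _, Ne.symm hq.2.1, Ne.symm hq.2.2, ?_, rfl⟩
      intro h
      exact hq.1 (congrArg Prod.snd h)
    have := card_superset_le (s + 3)
      ({(b, 0), (q.1, q.2.1), (q.1, q.2.2)} : Finset (Fin m × ZMod t))
    rw [hc3] at this
    simpa [Fintype.card_prod, ZMod.card] using this
  calc (famOne (t := t) (s + 3) b).card ≤ _ := card_le_card hsub
    _ ≤ _ := card_biUnion_le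
    _ ≤ ∑ q ∈ ((univ : Finset (Fin m × ZMod t × ZMod t)).filter fun q =>
        q.2.1 ≠ q.2.2 ∧ (q.1, q.2.1) ≠ (b, 0) ∧ (q.1, q.2.2) ≠ (b, 0)), (m * t) ^ s :=
        sum_le_sum hq
    _ ≤ ∑ q ∈ (univ : Finset (Fin m × ZMod t × ZMod t)), (m * t) ^ s :=
        sum_le_sum_of_subset (filter_subset _ _)
    _ = m ^ (s + 1) * t ^ (s + 2) := by
        simp only [sum_const, card_univ, Fintype.card_prod, Fintype.card_fin, ZMod.card,
          smul_eq_mul]
        ring

lemma famTwo_card {m t : ℕ} [NeZero t] (s : ℕ) (b : Fin m) :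
    (famTwo (t := t) (s + 3) b).card ≤ m ^ (s + 1) * t ^ (s + 2) := by
  have hsub : famTwo (t := t) (s + 3) b ⊆
      ((univ : Finset (ZMod t)).filter fun x => x ≠ x + 1).biUnion
        fun x => univ.filter fun A : Finset (Fin m × ZMod t) =>
          A.card = s + 3 ∧ {(b, x), (b, x + 1)} ⊆ A := by
    intro A hA
    simp only [famTwo, mem_filter, mem_univ, true_and] at hA
    obtain ⟨h1, x, hxy, hx, hy⟩ := hA
    rw [mem_biUnion]
    refine ⟨x, by simp only [mem_filter, mem_univ, true_and]; exact hxy, ?_⟩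
    simp only [mem_filter, mem_univ, true_and]
    refine ⟨h1, ?_⟩
    intro v hv
    simp only [mem_insert, mem_singleton] at hv
    rcases hv with rfl | rfl <;> assumption
  have hq : ∀ x ∈ ((univ : Finset (ZMod t)).filter fun x => x ≠ x + 1),
      (univ.filter fun A : Finset (Fin m × ZMod t) =>
          A.card = s + 3 ∧ {(b, x), (b, x + 1)} ⊆ A).card ≤ (m * t) ^ (s + 1) := by
    intro x hx
    simp only [mem_filter, mem_univ, true_and] at hx
    have hc2 : ({(b, x), (b, x + 1)} : Finset (Fin m × ZMod t)).card = 2 := by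
      rw [card_eq_two]
      exact ⟨_, _, fun h => hx (congrArg Prod.snd h), rfl⟩
    have := card_superset_le (s + 3) ({(b, x), (b, x + 1)} : Finset (Fin m × ZMod t))
    rw [hc2] at this
    have h2 : s + 3 - 2 = s + 1 := by omega
    rw [h2] at this
    simpa [Fintype.card_prod, ZMod.card] using this
  calc (famTwo (t := t) (s + 3) b).card ≤ _ := card_le_card hsub
    _ ≤ _ := card_biUnion_le
    _ ≤ ∑ x ∈ ((univ : Finset (ZMod t)).filter fun x => x ≠ x + 1), (m * t) ^ (s + 1) :=
        sum_le_sum hq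
    _ ≤ ∑ x ∈ (univ : Finset (ZMod t)), (m * t) ^ (s + 1) :=
        sum_le_sum_of_subset (filter_subset _ _)
    _ = m ^ (s + 1) * t ^ (s + 2) := by
        simp only [sum_const, card_univ, ZMod.card, smul_eq_mul]
        ring

/-- The product family. -/
def prodFam {m t : ℕ} [NeZero t] (d : ℕ) (E : Finset (Finset (Fin m))) (b : Fin m) :
    Finset (Finset (Fin m × ZMod t)) :=
  E.biUnion (zeroSum (t := t)) ∪ famOne d b ∪ famTwo d b

lemma prodFam_card {m t : ℕ} [NeZero t] (s : ℕ) (E : Finset (Finset (Fin m)))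
    (hE : ∀ e ∈ E, e.card = s + 3) (b : Fin m) :
    (prodFam (t := t) (s + 3) E b).card ≤ (E.card + 2 * m ^ (s + 1)) * t ^ (s + 2) := by
  have h1 : (E.biUnion (zeroSum (t := t))).card ≤ E.card * t ^ (s + 2) := by
    calc (E.biUnion (zeroSum (t := t))).card ≤ ∑ e ∈ E, (zeroSum (t := t) e).card :=
          card_biUnion_le
      _ ≤ ∑ e ∈ E, t ^ (s + 2) := by
          apply sum_le_sum
          intro e he
          have := zeroSum_card (t := t) e (card_pos.1 (by rw [hE e he]; omega))
          rwa [hE e he] at this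
      _ = E.card * t ^ (s + 2) := by simp
  have h2 := famOne_card (t := t) s b
  have h3 := famTwo_card (t := t) s b
  calc (prodFam (t := t) (s + 3) E b).card
      ≤ (E.biUnion (zeroSum (t := t)) ∪ famOne (s + 3) b).card + (famTwo (s + 3) b).card :=
        card_union_le _ _
    _ ≤ (E.biUnion (zeroSum (t := t))).card + (famOne (s + 3) b).card +
        (famTwo (s + 3) b).card := by
        gcongr
        exact card_union_le _ _
    _ ≤ E.card * t ^ (s + 2) + m ^ (s + 1) * t ^ (s + 2) + m ^ (s + 1) * t ^ (s + 2) := by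
        gcongr
    _ = _ := by ring

lemma zmod_const {t : ℕ} [NeZero t] {α : Type} (f : ZMod t → α) (h : ∀ x, f x = f (x + 1))
    (x y : ZMod t) : f x = f y := by
  have h1 : ∀ n : ℕ, f (n : ZMod t) = f 0 := by
    intro n
    induction n with
    | zero => simp
    | succ n ih => rw [Nat.cast_succ, ← h, ih]
  have h2 : ∀ z : ZMod t, f z = f 0 := fun z => by
    have := h1 z.val
    rwa [ZMod.natCast_zmod_val] at this
  rw [h2 x, h2 y]

lemma prodFam_blocking {m t : ℕ} [NeZero t] (s : ℕ) (E : Finset (Finset (Fin m)))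
    (hE : ColBlocking (s + 3) E) (b : Fin m) :
    ColBlocking (s + 3) (prodFam (t := t) (s + 3) E b) := by
  constructor
  · intro A hA
    simp only [prodFam, mem_union, mem_biUnion] at hA
    rcases hA with (⟨e, he, hA⟩ | hA) | hA
    · simp only [zeroSum, mem_image, mem_filter, mem_univ, true_and] at hA
      obtain ⟨x, _, rfl⟩ := hA
      rw [card_image_of_injective _ (fun i j h => congrArg Prod.fst h), hE.1 e he]
    · simp only [famOne, mem_filter, mem_univ, true_and] at hA
      exact hA.1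
    · simp only [famTwo, mem_filter, mem_univ, true_and] at hA
      exact hA.1
  intro χ hχ
  by_contra hno
  push Not at hno
  -- no rainbow edge
  set a := χ (b, 0) with ha
  -- (i) every block has at most one colour different from `a`
  have hone : ∀ (i : Fin m) (x y : ZMod t), χ (i, x) ≠ a → χ (i, y) ≠ a →
      χ (i, x) = χ (i, y) := by
    intro i x y hx hy
    by_contra hxy
    have hinj : Set.InjOn χ ({(b, 0), (i, x), (i, y)} : Finset (Fin m × ZMod t)) := by
      intro u hu v hv huv
      simp only [coe_insert, coe_singleton, Set.mem_insert_iff, Set.mem_singleton_iff] at hu hv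
      rcases hu with rfl | rfl | rfl <;> rcases hv with rfl | rfl | rfl <;>
        first
        | rfl
        | exact absurd huv (by assumption)
        | exact absurd huv.symm (by assumption)
    obtain ⟨A, hA1, hA2, hA3⟩ := exists_rainbow hχ _ hinj
    obtain ⟨c, hc⟩ := hno A (by
      simp only [prodFam, mem_union]
      refine Or.inl (Or.inr ?_)
      simp only [famOne, mem_filter, mem_univ, true_and]
      refine ⟨hA2, hA1 (by simp), i, x, y, fun h => hxy (by rw [h]), hA1 (by simp),
        hA1 (by simp), fun h => hx (by rw [h]), fun h => hy (by rw [h])⟩)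
    obtain ⟨v, hv, hvc⟩ := hA3 c
    exact hc v hv hvc
  -- (ii) block `b` is not monochromatic in colour `a`
  have hblock : ∃ x, χ (b, x) ≠ a := by
    by_contra hpure
    push Not at hpure
    -- colour of a block
    have hcol : ∀ i, ∃ x, (∃ y, χ (i, y) ≠ a) → χ (i, x) ≠ a := by
      intro i
      by_cases h : ∃ y, χ (i, y) ≠ a
      · obtain ⟨y, hy⟩ := h
        exact ⟨y, fun _ => hy⟩
      · exact ⟨0, fun h' => absurd h' h⟩
    choose x hx using hcol
    let f : Fin m → Fin (s + 3) := fun i => χ (i, x i)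
    have hf : Function.Surjective f := by
      intro c
      obtain ⟨⟨i, y⟩, hc⟩ := hχ c
      by_cases hca : c = a
      · exact ⟨b, by simp only [f]; rw [hpure, hca]⟩
      · have h1 : χ (i, y) ≠ a := by rw [hc]; exact hca
        have h2 := hx i ⟨y, h1⟩
        exact ⟨i, by simp only [f]; rw [hone i (x i) y h2 h1, hc]⟩
    obtain ⟨e, he, hrain⟩ := hE.2 f hf
    obtain ⟨i0, hi0, hi0a⟩ := hrain a
    have hpure0 : ∀ y, χ (i0, y) = a := by
      intro y
      by_contra hy
      exact hx i0 ⟨y, hy⟩ hi0a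
    let x' : Fin m → ZMod t := Function.update x i0 (- ∑ j ∈ e.erase i0, x j)
    have hsum : ∑ i ∈ e, x' i = 0 := by
      rw [← add_sum_erase e x' hi0]
      have h1 : ∑ j ∈ e.erase i0, x' j = ∑ j ∈ e.erase i0, x j := by
        apply sum_congr rfl
        intro j hj
        simp only [x']
        rw [Function.update_of_ne (ne_of_mem_erase hj)]
      rw [h1]
      simp [x']
    have hcol' : ∀ i, χ (i, x' i) = f i := by
      intro i
      by_cases hi : i = i0
      · subst hi
        rw [hpure0]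
        exact hi0a.symm
      · simp only [x', f]
        rw [Function.update_of_ne hi]
    obtain ⟨c, hc⟩ := hno (e.image fun i => (i, x' i)) (by
      simp only [prodFam, mem_union, mem_biUnion]
      refine Or.inl (Or.inl ⟨e, he, ?_⟩)
      simp only [zeroSum, mem_image, mem_filter, mem_univ, true_and]
      exact ⟨x', hsum, rfl⟩)
    obtain ⟨i, hi, hic⟩ := hrain c
    exact hc (i, x' i) (mem_image_of_mem _ hi) (by rw [hcol', hic])
  obtain ⟨x1, hx1⟩ := hblock
  have hcons : ∃ x, χ (b, x) ≠ χ (b, x + 1) := by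
    by_contra h
    push Not at h
    exact hx1 (zmod_const (fun x => χ (b, x)) h x1 0)
  obtain ⟨x, hx⟩ := hcons
  have hxne : x ≠ x + 1 := fun h => hx (by rw [← h])
  have hinj : Set.InjOn χ ({(b, x), (b, x + 1)} : Finset (Fin m × ZMod t)) := by
    intro u hu v hv huv
    simp only [coe_insert, coe_singleton, Set.mem_insert_iff, Set.mem_singleton_iff] at hu hv
    rcases hu with rfl | rfl <;> rcases hv with rfl | rfl <;>
      first
      | rfl
      | exact absurd huv (by assumption)
      | exact absurd huv.symm (by assumption)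
  obtain ⟨A, hA1, hA2, hA3⟩ := exists_rainbow hχ _ hinj
  obtain ⟨c, hc⟩ := hno A (by
    simp only [prodFam, mem_union]
    refine Or.inr ?_
    simp only [famTwo, mem_filter, mem_univ, true_and]
    exact ⟨hA2, x, hxne, hA1 (by simp), hA1 (by simp)⟩)
  obtain ⟨v, hv, hvc⟩ := hA3 c
  exact hc v hv hvc

/-! ### The limit -/

lemma phi_mul_le (s m t : ℕ) (hm : 0 < m) (ht : 0 < t) :
    phi (s + 3) (m * t) ≤ (phi (s + 3) m + 2 * m ^ (s + 1)) * t ^ (s + 2) := by
  have : NeZero t := ⟨ht.ne'⟩
  obtain ⟨E, hE, hc⟩ := phi_spec (s + 3) m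
  have h1 := prodFam_blocking (t := t) s E hE ⟨0, hm⟩
  have h2 := prodFam_card (t := t) s E hE.1 ⟨0, hm⟩
  rw [hc] at h2
  have hcard : Fintype.card (Fin m × ZMod t) = m * t := by simp [ZMod.card]
  exact (phi_le_of_surj h1 (Fintype.equivFinOfCardEq hcard)
    (Fintype.equivFinOfCardEq hcard).surjective).trans h2

lemma phi_le_main (s m N : ℕ) (hm : 0 < m) (hN : 0 < N) :
    (phi (s + 3) N : ℝ) / (N : ℝ) ^ (s + 2) ≤
      ((phi (s + 3) m : ℝ) / (m : ℝ) ^ (s + 2) + 2 / m) * (1 + (m : ℝ) / N) ^ (s + 2) := by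
  set t := N / m + 1 with ht
  have ht0 : 0 < t := Nat.succ_pos _
  have h1 : N ≤ m * t := (Nat.lt_mul_div_succ N hm).le
  have h2 : m * t ≤ N + m := by
    have h := Nat.mul_div_le N m
    rw [ht, Nat.mul_add, Nat.mul_one]
    exact Nat.add_le_add_right h m
  have h3 : phi (s + 3) N ≤ (phi (s + 3) m + 2 * m ^ (s + 1)) * t ^ (s + 2) :=
    (phi_mono hN h1).trans (phi_mul_le s m t hm ht0)
  have hm' : (0 : ℝ) < m := by exact_mod_cast hm
  have hN' : (0 : ℝ) < N := by exact_mod_cast hN
  have h4 : (phi (s + 3) N : ℝ) ≤ ((phi (s + 3) m : ℝ) + 2 * (m : ℝ) ^ (s + 1)) *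
      (t : ℝ) ^ (s + 2) := by exact_mod_cast h3
  have h5 : (t : ℝ) ≤ (N + m) / m := by
    rw [le_div_iff₀ hm']
    have : ((m * t : ℕ) : ℝ) ≤ ((N + m : ℕ) : ℝ) := by exact_mod_cast h2
    push_cast at this
    linarith
  calc (phi (s + 3) N : ℝ) / (N : ℝ) ^ (s + 2)
      ≤ (((phi (s + 3) m : ℝ) + 2 * (m : ℝ) ^ (s + 1)) * (t : ℝ) ^ (s + 2)) /
        (N : ℝ) ^ (s + 2) := by gcongr
    _ ≤ (((phi (s + 3) m : ℝ) + 2 * (m : ℝ) ^ (s + 1)) * (((N : ℝ) + m) / m) ^ (s + 2)) /
        (N : ℝ) ^ (s + 2) := by gcongr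
    _ = ((phi (s + 3) m : ℝ) / (m : ℝ) ^ (s + 2) + 2 / m) * (1 + (m : ℝ) / N) ^ (s + 2) := by
      have e1 : (1 + (m : ℝ) / N) = (N + m) / N := by field_simp
      rw [e1, div_pow, div_pow]
      field_simp
      ring

lemma limit_of_bound (u : ℕ → ℝ) (p : ℕ) (hu : ∀ n, 0 ≤ u n)
    (h : ∀ m N : ℕ, 0 < m → 0 < N → u N ≤ (u m + 2 / m) * (1 + (m : ℝ) / N) ^ p) :
    ∃ c, Filter.Tendsto u Filter.atTop (nhds c) := by
  let w : ℕ → ℝ := fun m => u (m + 1) + 2 / ((m + 1 : ℕ) : ℝ)
  have hbdd : BddBelow (Set.range w) := ⟨0, by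
    rintro _ ⟨m, rfl⟩
    have := hu (m + 1)
    simp only [w]
    positivity⟩
  refine ⟨⨅ m, w m, ?_⟩
  rw [tendsto_order]
  constructor
  · intro a ha
    have h1 : Filter.Tendsto (fun N : ℕ => (⨅ m, w m) - 2 / (N : ℝ)) Filter.atTop
        (nhds ((⨅ m, w m) - 0)) :=
      tendsto_const_nhds.sub (Filter.Tendsto.const_div_atTop tendsto_natCast_atTop_atTop 2)
    rw [sub_zero] at h1
    filter_upwards [(tendsto_order.1 h1).1 a ha, Filter.eventually_ge_atTop 1] with N hN hN1
    obtain ⟨M, rfl⟩ : ∃ M, N = M + 1 := ⟨N - 1, by omega⟩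
    have h2 : (⨅ m, w m) ≤ w M := ciInf_le hbdd M
    simp only [w] at h2 hN
    linarith
  · intro b hb
    obtain ⟨m, hm⟩ := exists_lt_of_ciInf_lt hb
    have h1 : Filter.Tendsto (fun N : ℕ => (u (m + 1) + 2 / ((m + 1 : ℕ) : ℝ)) *
        (1 + ((m + 1 : ℕ) : ℝ) / N) ^ p) Filter.atTop
        (nhds ((u (m + 1) + 2 / ((m + 1 : ℕ) : ℝ)) * (1 + 0) ^ p)) := by
      apply Filter.Tendsto.const_mul
      apply Filter.Tendsto.pow
      exact tendsto_const_nhds.add
        (Filter.Tendsto.const_div_atTop tendsto_natCast_atTop_atTop _)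
    rw [add_zero, one_pow, mul_one] at h1
    filter_upwards [(tendsto_order.1 h1).2 b hm, Filter.eventually_ge_atTop 1] with N hN hN1
    exact (h (m + 1) N (by omega) (by omega)).trans_lt hN

/-- **Main result.** For every integer `d ≥ 3` (in particular for every `d ≥ 4`) the sequence
`φ_d(n) / n ^ (d - 1)` converges as `n → ∞`. -/
theorem result (d : ℕ) (hd : 3 ≤ d) :
    ∃ c : ℝ, Filter.Tendsto (fun n : ℕ => (phi d n : ℝ) / (n : ℝ) ^ (d - 1))
      Filter.atTop (nhds c) := by
  obtain ⟨s, rfl⟩ : ∃ s, d = s + 3 := ⟨d - 3, by omega⟩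
  exact limit_of_bound _ (s + 2) (fun n => by positivity)
    (fun m N hm hN => phi_le_main s m N hm hN)

end Pool.Agent.Results.MP_d4e795_co.LimitExists
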